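import Pool.Agent.MBG.Lim

/-!
# The density of the Staller-first Maker-Breaker domination number of grids

Partial answer to Q2.  The quotients `γ'_MB (P_n □ P_m) / (n m)` tend to their infimum as `n` and `m` tend
to infinity, and for every `n ≥ 2` the quotients `γ'_MB (P_n □ P_m) / m` tend to their infimum as `m` tends
to infinity.
-/

set_option autoImplicit false

namespace Pool.Agent.Results.MP_204f32_co.Density

open Pool.Agent.MBG

theorem result :
    (∃ c : ℝ,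
      (∀ n m : ℕ, 2 ≤ n → 2 ≤ m →
        ∃ k : ℕ, gammaS ((SimpleGraph.pathGraph n).boxProd (SimpleGraph.pathGraph m)) = k ∧
          c * (n * m) ≤ k) ∧
      ∀ ε : ℝ, 0 < ε → ∃ N : ℕ, ∀ n m : ℕ, N ≤ n → N ≤ m →
        ∃ k : ℕ, gammaS ((SimpleGraph.pathGraph n).boxProd (SimpleGraph.pathGraph m)) = k ∧
          (k : ℝ) ≤ (c + ε) * (n * m)) ∧
    ∀ n : ℕ, 2 ≤ n → ∃ c : ℝ,
      (∀ m : ℕ, 2 ≤ m →
        ∃ k : ℕ, gammaS ((SimpleGraph.pathGraph n).boxProd (SimpleGraph.pathGraph m)) = k ∧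
          c * m ≤ k) ∧
      ∀ ε : ℝ, 0 < ε → ∃ N : ℕ, ∀ m : ℕ, N ≤ m →
        ∃ k : ℕ, gammaS ((SimpleGraph.pathGraph n).boxProd (SimpleGraph.pathGraph m)) = k ∧
          (k : ℝ) ≤ (c + ε) * m :=
  ⟨density, strip_density⟩

end Pool.Agent.Results.MP_204f32_co.Density
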