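import Pool.Agent.MBL.Asm

/-!
# MP_204f32_co : a lower bound for the Maker-Breaker domination number of grids

`305 n m ≤ 1524 γ_MB(P_n □ P_m) + 50 (n + m)`, and `305 / 1524 > 1 / 5`.
-/

set_option autoImplicit false

namespace Pool.Agent.Results.MP_204f32_co.LowerBound

open Pool.Agent.MBL

theorem result (n m : ℕ) :
    ((305 * (n * m) : ℕ) : ℕ∞) ≤ 1524 * gammaMB (grid n m) + ((50 * (n + m) : ℕ) : ℕ∞) :=
  main' n m

end Pool.Agent.Results.MP_204f32_co.LowerBound
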