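import Pool.Agent.MBG.Both

/-!
# Upper bound for the Maker-Breaker domination numbers of all grids

Partial answer to Q1 and Q2.  For `n = 3 a + 2 c ≥ 1` and `m = 6 p + 3 b + 2 e ≥ 1` both Maker-Breaker
domination numbers (Staller first and Dominator first) of the grid `P_n □ P_m` are at most
`(n m - a (4 p + b)) / 2`.
-/

set_option autoImplicit false

namespace Pool.Agent.Results.MP_204f32_co.StallerFirst

open Pool.Agent.MBG

theorem result (n m a b c e p : ℕ) (hn : n = 3 * a + 2 * c) (hm : m = 6 * p + 3 * b + 2 * e)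
    (hn0 : 0 < n) (hm0 : 0 < m) :
    gammaS ((SimpleGraph.pathGraph n).boxProd (SimpleGraph.pathGraph m))
        ≤ (((n * m - a * (4 * p + b)) / 2 : ℕ) : ℕ∞) ∧
      gammaD ((SimpleGraph.pathGraph n).boxProd (SimpleGraph.pathGraph m))
        ≤ (((n * m - a * (4 * p + b)) / 2 : ℕ) : ℕ∞) := by
  haveI : Nonempty (Fin n × Fin m) := ⟨(⟨0, hn0⟩, ⟨0, hm0⟩)⟩
  have key : Win ((SimpleGraph.pathGraph n).boxProd (SimpleGraph.pathGraph m))
      ((n * m - a * (4 * p + b)) / 2) ∅ ∅ := by
    subst hn; subst hm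
    have h := win_grid6 a c p b e
    have e1 : ((3 * a + 2 * c) * (6 * p + 3 * b + 2 * e) - a * (4 * p + b)) / 2
        = (7 * p + 4 * b + 3 * e) * a + (6 * p + 3 * b + 2 * e) * c := by
      have : (3 * a + 2 * c) * (6 * p + 3 * b + 2 * e)
          = 2 * ((7 * p + 4 * b + 3 * e) * a + (6 * p + 3 * b + 2 * e) * c) + a * (4 * p + b) := by
        ring
      rw [this, Nat.add_sub_cancel, Nat.mul_div_cancel_left _ (by norm_num)]
    rw [e1]
    exact h
  exact ⟨gammaS_le key, gammaD_le key⟩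

end Pool.Agent.Results.MP_204f32_co.StallerFirst
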